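import Pool.Agent.W295.PR.Stm

/-!
# PR-WORD: words are continuous modulo a normal subgroup
-/

set_option autoImplicit false

open Topology

namespace Pool.Agent.W395.PR.WORD

open Pool.Agent.W295.PR

theorem main : S_WORD := by
  intro R G _ _ _ K hK w
  classical
  have hinv : ∀ x : FreeGroup R,
      (∀ V ∈ 𝓝 (1 : G), ∃ W ∈ 𝓝 (1 : G), ∃ E : Finset R, ∀ f : R → G,
        (∀ q ∈ E, ∃ v ∈ W, ∃ z ∈ K, f q = v * z) →
          ∃ v ∈ V, ∃ z ∈ K, FreeGroup.lift f x = v * z) →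
      (∀ V ∈ 𝓝 (1 : G), ∃ W ∈ 𝓝 (1 : G), ∃ E : Finset R, ∀ f : R → G,
        (∀ q ∈ E, ∃ v ∈ W, ∃ z ∈ K, f q = v * z) →
          ∃ v ∈ V, ∃ z ∈ K, FreeGroup.lift f x⁻¹ = v * z) := by
    intro x hx V hV
    have hV' : {g : G | g⁻¹ ∈ V} ∈ 𝓝 (1 : G) := by
      have h1 : Filter.Tendsto (fun g : G => g⁻¹) (𝓝 1) (𝓝 1) := by
        have := (continuous_inv (G := G)).tendsto 1
        rwa [inv_one] at this
      exact h1 hV
    obtain ⟨W, hW, E, h⟩ := hx _ hV'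
    refine ⟨W, hW, E, fun f hf => ?_⟩
    obtain ⟨v, hv, z, hz, e⟩ := h f hf
    refine ⟨v⁻¹, hv, v * z⁻¹ * v⁻¹, hK.conj_mem _ (K.inv_mem hz) v, ?_⟩
    rw [map_inv, e]
    group
  induction w using FreeGroup.induction_on with
  | C1 =>
    intro V hV
    refine ⟨Set.univ, Filter.univ_mem, ∅, fun f _ => ⟨1, mem_of_mem_nhds hV, 1, K.one_mem, ?_⟩⟩
    rw [map_one, mul_one]
  | of x =>
    intro V hV
    refine ⟨V, hV, {x}, fun f hf => ?_⟩
    obtain ⟨v, hv, z, hz, e⟩ := hf x (Finset.mem_singleton_self x)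
    exact ⟨v, hv, z, hz, by rw [FreeGroup.lift_apply_of, e]⟩
  | inv_of x hx => exact hinv _ hx
  | mul x y hx hy =>
    intro V hV
    have hmul : Filter.Tendsto (fun p : G × G => p.1 * p.2) (𝓝 (1 : G) ×ˢ 𝓝 (1 : G)) (𝓝 1) := by
      have := (continuous_mul (M := G)).tendsto (1, 1)
      rwa [one_mul, nhds_prod_eq] at this
    obtain ⟨V1, hV1, V2, hV2, hsub⟩ := Filter.mem_prod_iff.1 (hmul hV)
    obtain ⟨W, hW, E, h⟩ := hx V1 hV1
    obtain ⟨W', hW', E', h'⟩ := hy V2 hV2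
    refine ⟨W ∩ W', Filter.inter_mem hW hW', E ∪ E', fun f hf => ?_⟩
    obtain ⟨v, hv, z, hz, e⟩ := h f (fun q hq => by
      obtain ⟨v, hv, z, hz, e⟩ := hf q (Finset.mem_union_left _ hq)
      exact ⟨v, hv.1, z, hz, e⟩)
    obtain ⟨v', hv', z', hz', e'⟩ := h' f (fun q hq => by
      obtain ⟨v, hv, z, hz, e⟩ := hf q (Finset.mem_union_right _ hq)
      exact ⟨v, hv.2, z, hz, e⟩)
    refine ⟨v * v', hsub (Set.mk_mem_prod hv hv'), v'⁻¹ * z * v' * z',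
      K.mul_mem ?_ hz', ?_⟩
    · have := hK.conj_mem z hz v'⁻¹
      rwa [inv_inv] at this
    · rw [map_mul, e, e']
      group

end Pool.Agent.W395.PR.WORD
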